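import Mathlib

/-!
# ε-isomorphic C*-algebras and the Kadison-Kastler distance: definitions
-/

namespace Pool.Agent.helper32.CK

open scoped InnerProductSpace

universe u v

/-- `φ : A → B` (an arbitrary map) is an `ε`-isomorphism of C*-algebras: `‖φ‖ ≤ 1` on the unit
ball, `φ` is `ε`-linear, `ε`-self-adjoint, `ε`-multiplicative and `ε`-isometric on the unit ball
(the suprema over the unit ball are `< ε`), and every element of the unit ball of `B` is at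
distance `< ε` from the image of the unit ball. -/
structure IsEpsIso {A : Type u} {B : Type v} [NonUnitalCStarAlgebra A]
    [NonUnitalCStarAlgebra B] (ε : ℝ) (φ : A → B) : Prop where
  norm_le : ∀ a : A, ‖a‖ ≤ 1 → ‖φ a‖ ≤ 1
  linear : ∃ δ < ε, ∀ (x y : A) (l m : ℂ), ‖x‖ ≤ 1 → ‖y‖ ≤ 1 → ‖l‖ ≤ 1 → ‖m‖ ≤ 1 →
    ‖φ (l • x + m • y) - l • φ x - m • φ y‖ ≤ δ
  star : ∃ δ < ε, ∀ x : A, ‖x‖ ≤ 1 → ‖φ (Star.star x) - Star.star (φ x)‖ ≤ δ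
  mul : ∃ δ < ε, ∀ x y : A, ‖x‖ ≤ 1 → ‖y‖ ≤ 1 → ‖φ (x * y) - φ x * φ y‖ ≤ δ
  isometric : ∃ δ < ε, ∀ x : A, ‖x‖ ≤ 1 → |‖x‖ - ‖φ x‖| ≤ δ
  onto : ∀ b : B, ‖b‖ ≤ 1 → ∃ x : A, ‖x‖ ≤ 1 ∧ ‖b - φ x‖ < ε

/-- `sup` over the unit ball of `S` of the distance to `T`. -/
noncomputable def oneSided {H : Type u} [NormedAddCommGroup H] [InnerProductSpace ℂ H]
    (S T : Set (H →L[ℂ] H)) : ℝ :=
  ⨆ a : {a : H →L[ℂ] H // a ∈ S ∧ ‖a‖ ≤ 1}, Metric.infDist a.1 T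

/-- The Kadison-Kastler distance of two sets of operators. -/
noncomputable def dKK {H : Type u} [NormedAddCommGroup H] [InnerProductSpace ℂ H]
    (S T : Set (H →L[ℂ] H)) : ℝ := max (oneSided S T) (oneSided T S)

/-- A map with the approximate algebraic properties on the unit ball. -/
structure ApproxHom {A : Type u} {C : Type v} [NonUnitalCStarAlgebra A]
    [NonUnitalCStarAlgebra C] (ε : ℝ) (θ : A → C) : Prop where
  norm_le : ∀ a : A, ‖a‖ ≤ 1 → ‖θ a‖ ≤ 1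
  linear : ∀ (x y : A) (l m : ℂ), ‖x‖ ≤ 1 → ‖y‖ ≤ 1 → ‖l‖ ≤ 1 → ‖m‖ ≤ 1 →
    ‖θ (l • x + m • y) - l • θ x - m • θ y‖ ≤ ε
  star : ∀ x : A, ‖x‖ ≤ 1 → ‖θ (Star.star x) - Star.star (θ x)‖ ≤ ε
  mul : ∀ x y : A, ‖x‖ ≤ 1 → ‖y‖ ≤ 1 → ‖θ (x * y) - θ x * θ y‖ ≤ ε

/-- Topological irreducibility of a representation. -/
def Irr {A : Type u} {H : Type v} [NonUnitalCStarAlgebra A] [NormedAddCommGroup H]
    [InnerProductSpace ℂ H] [CompleteSpace H] (π : A →⋆ₙₐ[ℂ] (H →L[ℂ] H)) : Prop :=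
  (∃ a, π a ≠ 0) ∧ ∀ E : Submodule ℂ H, IsClosed (E : Set H) →
    (∀ a, ∀ v ∈ E, π a v ∈ E) → E = ⊥ ∨ E = ⊤

/-! ### finite dimensional core -/

/-- `ℂ^I` with the Euclidean norm. -/
abbrev En (I : Type u) := EuclideanSpace ℂ I

/-- The diagonal operator with diagonal `d`. -/
noncomputable def dg {I : Type u} [Fintype I] [DecidableEq I] (d : I → ℂ) : En I →L[ℂ] En I :=
  (Matrix.toEuclideanCLM (𝕜 := ℂ) (n := I)) (Matrix.diagonal d)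

/-- The permutation operator: `pm p (e_i) = e_(p i)`. -/
noncomputable def pm {I : Type u} [Fintype I] (p : Equiv.Perm I) : En I →L[ℂ] En I :=
  ((LinearIsometryEquiv.piLpCongrLeft 2 ℂ ℂ p).toContinuousLinearEquiv : En I →L[ℂ] En I)

/-- The normalised indicator vector of `J`. -/
noncomputable def flat {I : Type u} [Fintype I] [DecidableEq I] (J : Finset I) : En I :=
  ((Real.sqrt (J.card : ℝ))⁻¹ : ℂ) • ∑ j ∈ J, EuclideanSpace.single j (1 : ℂ)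

/-- Hypotheses of the core theorem: `Y` is an approximately linear map of the unit ball of `ℂ^I`,
`S M` are linear operators with `S M ∘ Y ~ Y ∘ M`, `Y` commutes approximately with signs, is
approximately onto and fixes the basis approximately. -/
structure Core {I : Type u} [Fintype I] [DecidableEq I] (τ : ℝ) (Y : En I → En I)
    (S : (En I →L[ℂ] En I) → (En I →L[ℂ] En I)) : Prop where
  bd : ∀ x, ‖x‖ ≤ 1 → ‖Y x‖ ≤ 2
  add : ∀ (x y : En I) (l m : ℂ), ‖x‖ ≤ 1 → ‖y‖ ≤ 1 → ‖l‖ ≤ 1 → ‖m‖ ≤ 1 →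
    ‖l • x + m • y‖ ≤ 1 → ‖Y (l • x + m • y) - (l • Y x + m • Y y)‖ ≤ τ
  op : ∀ M : En I →L[ℂ] En I, ‖M‖ ≤ 1 → ∀ x, ‖x‖ ≤ 1 → ‖S M (Y x) - Y (M x)‖ ≤ τ
  sign : ∀ s : I → ℤˣ, ∀ x, ‖x‖ ≤ 1 →
    ‖Y (dg (fun i => ((s i : ℤ) : ℂ)) x) - dg (fun i => ((s i : ℤ) : ℂ)) (Y x)‖ ≤ τ
  onto : ∀ y, ‖y‖ ≤ 1 → ∃ x, ‖x‖ ≤ 1 ∧ ‖Y x - y‖ ≤ τ
  base : ∀ i, ‖Y (EuclideanSpace.single i 1) - EuclideanSpace.single i 1‖ ≤ τ

/-- The strong closure of the selfadjoint part of the unit ball of `A` in a representation. -/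
def Cl {A : Type u} {H : Type v} [NonUnitalCStarAlgebra A] [NormedAddCommGroup H]
    [InnerProductSpace ℂ H] [CompleteSpace H] (σ : A →⋆ₙₐ[ℂ] (H →L[ℂ] H)) : Set (H →L[ℂ] H) :=
  {x | ∀ (F : Finset H) (κ : ℝ), 0 < κ → ∃ y : A, IsSelfAdjoint y ∧ ‖y‖ ≤ 1 ∧
    ∀ v ∈ F, ‖σ y v - x v‖ ≤ κ}

end Pool.Agent.helper32.CK
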