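import Pool.Agent.helper1.CK.S1a
import Pool.Agent.helper26.CK.S1b
import Pool.Agent.helper26.CK.K3b
import Pool.Agent.helper31.CK.N4
import Pool.Agent.helper67.CK.Z2
import Pool.Agent.helper67.CK.Z3
import Pool.Agent.helper91.CK.V
import Pool.Agent.helper1.CK.St2

namespace Pool.Agent.helper32.CK

open scoped InnerProductSpace ComplexOrder
open Filter Topology

universe u v w

lemma Z_approxHom {A : Type u} {B : Type v} [NonUnitalCStarAlgebra A] [NonUnitalCStarAlgebra B]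
    {H : Type w} [NormedAddCommGroup H] [InnerProductSpace ℂ H] [CompleteSpace H]
    (π : B →⋆ₙₐ[ℂ] (H →L[ℂ] H)) {φ : A → B} {ε δ : ℝ} (hφ : IsEpsIso ε φ) (h : ε ≤ δ) :
    ApproxHom δ (fun a => π (φ a)) where
  norm_le a ha := (NonUnitalStarAlgHom.norm_apply_le π _).trans (hφ.norm_le a ha)
  linear x y l m hx hy hl hm := by
    obtain ⟨d, hd, H⟩ := hφ.linear
    rw [← map_smul, ← map_smul, ← map_sub, ← map_sub]
    exact (NonUnitalStarAlgHom.norm_apply_le π _).trans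
      ((H x y l m hx hy hl hm).trans (hd.le.trans h))
  star x hx := by
    obtain ⟨d, hd, H⟩ := hφ.star
    rw [← map_star, ← map_sub]
    exact (NonUnitalStarAlgHom.norm_apply_le π _).trans ((H x hx).trans (hd.le.trans h))
  mul x y hx hy := by
    obtain ⟨d, hd, H⟩ := hφ.mul
    rw [← map_mul, ← map_sub]
    exact (NonUnitalStarAlgHom.norm_apply_le π _).trans ((H x y hx hy).trans (hd.le.trans h))

theorem one_irr {A : Type u} {B : Type v} [NonUnitalCStarAlgebra A]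
    [NonUnitalCStarAlgebra B] {H : Type w} [NormedAddCommGroup H]
    [InnerProductSpace ℂ H] [CompleteSpace H] {π : B →⋆ₙₐ[ℂ] (H →L[ℂ] H)} (hπ : Irr π)
    (φ : A → B) (t : ℝ) (ht0 : 0 < t) (ht : t ≤ 1 / 10 ^ 20) (hφ : IsEpsIso (t ^ 8) φ) :
    ∃ ρ : A →⋆ₙₐ[ℂ] (H →L[ℂ] H), ∀ a, ‖a‖ ≤ 1 → ‖ρ a - π (φ a)‖ ≤ 10 ^ 16 * t := by
  let _ : PartialOrder A := CStarAlgebra.spectralOrder A
  have _ : StarOrderedRing A := CStarAlgebra.spectralOrderedRing A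
  have ht1 : t ≤ 1 := ht.trans (by norm_num)
  -- a unit vector
  obtain ⟨ξ, hξ⟩ : ∃ ξ : H, ‖ξ‖ = 1 := by
    obtain ⟨a, ha⟩ := hπ.1
    obtain ⟨v, hv⟩ : ∃ v, π a v ≠ 0 := by
      by_contra hcon
      push Not at hcon
      exact ha (ContinuousLinearMap.ext fun v => by simpa using hcon v)
    have hv0 : v ≠ 0 := by rintro rfl; simp at hv
    refine ⟨((‖v‖⁻¹ : ℝ) : ℂ) • v, ?_⟩
    rw [norm_smul]
    simp [norm_ne_zero_iff.mpr hv0]
  have hp4 : t ^ 4 ≤ t ^ 2 := by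
    exact pow_le_pow_of_le_one ht0.le ht1 (by norm_num)
  have hp8 : t ^ 8 ≤ t ^ 4 := by
    exact pow_le_pow_of_le_one ht0.le ht1 (by norm_num)
  have h2 : 0 < t ^ 2 := by positivity
  have h4 : 0 < t ^ 4 := by positivity
  have h8 : 0 < t ^ 8 := by positivity
  have ht2s : t ^ 2 ≤ 1 / 10 ^ 20 := by
    calc t ^ 2 ≤ t ^ 1 := pow_le_pow_of_le_one ht0.le ht1 (by norm_num)
      _ = t := pow_one t
      _ ≤ _ := ht
  obtain ⟨g, hg, hgn⟩ := near_functional hπ φ (t ^ 4) h4 (pow_le_one₀ ht0.le ht1)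
    (by rw [← pow_mul]; exact hφ) ξ hξ
  obtain ⟨K, _, _, _, σ, η, hσ, hη, hnear⟩ := near_pure g hg (fun a => π (φ a)) ξ hξ (8 * t ^ 2)
    (by positivity) (by nlinarith) (Z_approxHom π hφ (by nlinarith))
    (fun a ha => (hgn a ha).trans (by nlinarith))
    (fun F => by
      obtain ⟨z, hz0, hz1, hz⟩ := near_rank_one hπ φ (t ^ 8) h8 hφ ξ hξ F
      exact ⟨z, hz0, hz1, fun v hv hv1 => (hz v hv hv1).trans (by nlinarith)⟩)
  obtain ⟨U, hU⟩ := intertwine hσ η hη (fun a => π (φ a)) ξ hξ (100 * t) (by positivity)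
    (by norm_num at ht ⊢; linarith) (Z_approxHom π hφ (by nlinarith))
    (fun a ha => (hnear a ha).trans (by nlinarith))
    (fun y hy => by
      obtain ⟨b, hb1, hb⟩ := hπ.vec ξ hξ y hy (t ^ 8) h8
      obtain ⟨x, hx1, hx⟩ := hφ.onto b hb1
      refine ⟨x, hx1, ?_⟩
      have e : π (φ x) ξ - y = (π b ξ - y) - π (b - φ x) ξ := by
        rw [map_sub]; simp
      have hb2 : ‖π (b - φ x) ξ‖ ≤ t ^ 8 := by
        calc ‖π (b - φ x) ξ‖ ≤ ‖π (b - φ x)‖ * ‖ξ‖ := ContinuousLinearMap.le_opNorm _ _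
          _ ≤ ‖b - φ x‖ * 1 := by
            rw [hξ]; gcongr; exact NonUnitalStarAlgHom.norm_apply_le π _
          _ ≤ t ^ 8 := by rw [mul_one]; exact hx.le
      calc ‖π (φ x) ξ - y‖ ≤ ‖π b ξ - y‖ + ‖π (b - φ x) ξ‖ := by rw [e]; exact norm_sub_le _ _
        _ ≤ t ^ 8 + t ^ 8 := add_le_add hb hb2
        _ ≤ (100 * t) ^ 2 := by nlinarith)
  refine ⟨(U.conjStarAlgEquiv : (K →L[ℂ] K) →⋆ₙₐ[ℂ] (H →L[ℂ] H)).comp σ, fun a ha => ?_⟩
  refine ContinuousLinearMap.opNorm_le_of_unit_norm (by positivity) fun y hy => ?_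
  have h := hU a ha (U.symm y) (by simp [hy])
  simp only [LinearIsometryEquiv.apply_symm_apply] at h
  have e : ((((U.conjStarAlgEquiv : (K →L[ℂ] K) →⋆ₙₐ[ℂ] (H →L[ℂ] H)).comp σ) a - π (φ a)) y)
      = U (σ a (U.symm y)) - π (φ a) y := rfl
  rw [e]
  refine h.trans ?_
  nlinarith

lemma Z_norm_le {J : Type v} {H : J → Type w}
    [∀ j, NormedAddCommGroup (H j)] [∀ j, InnerProductSpace ℂ (H j)]
    [∀ j, CompleteSpace (H j)] (T : lp H 2 →L[ℂ] lp H 2) (S : ∀ j, H j →L[ℂ] H j) (C : ℝ)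
    (hC : 0 ≤ C) (hT : ∀ (x : lp H 2) j, (T x) j = S j (x j)) (hS : ∀ j, ‖S j‖ ≤ C) :
    ‖T‖ ≤ C := by
  refine ContinuousLinearMap.opNorm_le_bound _ hC fun x => ?_
  have h : ‖T x‖ ≤ ‖(C : ℂ) • x‖ := by
    refine lp.norm_mono (by norm_num) fun j => ?_
    rw [hT, lp.coeFn_smul, Pi.smul_apply, norm_smul]
    calc ‖S j (x j)‖ ≤ ‖S j‖ * ‖x j‖ := ContinuousLinearMap.le_opNorm _ _
      _ ≤ ‖(C : ℂ)‖ * ‖x j‖ := by
        gcongr
        rw [Complex.norm_real, Real.norm_of_nonneg hC]; exact hS j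
  rw [norm_smul, Complex.norm_real, Real.norm_of_nonneg hC] at h
  exact h

lemma Z_oneSided_le {H : Type u} [NormedAddCommGroup H] [InnerProductSpace ℂ H]
    (S T : Set (H →L[ℂ] H)) (C : ℝ) (h0 : (0 : H →L[ℂ] H) ∈ S)
    (h : ∀ a ∈ S, ‖a‖ ≤ 1 → ∃ b ∈ T, ‖a - b‖ ≤ C) : oneSided S T ≤ C := by
  have : Nonempty {a : H →L[ℂ] H // a ∈ S ∧ ‖a‖ ≤ 1} := ⟨⟨0, h0, by simp⟩⟩
  refine ciSup_le fun a => ?_
  obtain ⟨b, hb, hab⟩ := h a.1 a.2.1 a.2.2
  exact (Metric.infDist_le_dist_of_mem hb).trans (by rwa [dist_eq_norm])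

theorem main_small {A B : Type u} [NonUnitalCStarAlgebra A]
    [NonUnitalCStarAlgebra B]
    (φ : A → B) (t : ℝ) (ht0 : 0 < t) (ht : t ≤ 1 / 10 ^ 20) (hφ : IsEpsIso (t ^ 8) φ) :
    ∃ (H : Type u) (_ : NormedAddCommGroup H) (_ : InnerProductSpace ℂ H) (_ : CompleteSpace H)
      (ρA : A →⋆ₙₐ[ℂ] (H →L[ℂ] H)) (ρB : B →⋆ₙₐ[ℂ] (H →L[ℂ] H)),
      Function.Injective ρA ∧ Function.Injective ρB ∧
      dKK (Set.range ρA) (Set.range ρB) ≤ 10 ^ 17 * t := by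
  classical
  have ht1 : t ≤ 1 := ht.trans (by norm_num)
  have h8 : t ^ 8 ≤ t := by
    calc t ^ 8 ≤ t ^ 1 := pow_le_pow_of_le_one ht0.le ht1 (by norm_num)
      _ = t := pow_one t
  choose H i1 i2 i3 π hπ hn using fun b : {b : B // b ≠ 0} => exists_irr b.1 b.2
  choose ρ hρ using fun b => one_irr (hπ b) φ t ht0 ht hφ
  obtain ⟨RB, hRB⟩ := exists_sum H π
  obtain ⟨RA, hRA⟩ := exists_sum H ρ
  have near : ∀ a, ‖a‖ ≤ 1 → ‖RA a - RB (φ a)‖ ≤ 10 ^ 16 * t := fun a ha => by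
    refine Z_norm_le _ (fun j => ρ j a - π j (φ a)) _ (by positivity) (fun x j => ?_)
      (fun j => hρ j a ha)
    rw [sub_apply, lp.coeFn_sub, Pi.sub_apply, hRA, hRB]
    rfl
  have injB : Function.Injective RB := by
    rw [injective_iff_map_eq_zero]
    intro b hb
    by_contra hb0
    have hz : π ⟨b, hb0⟩ b = 0 := by
      ext v
      have := hRB b (lp.single 2 ⟨b, hb0⟩ v) ⟨b, hb0⟩
      rw [hb] at this
      simpa using this.symm
    have h1 := hn ⟨b, hb0⟩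
    simp only [hz, norm_zero] at h1
    exact hb0 (norm_le_zero_iff.mp h1)
  have hsm : 10 ^ 16 * t ≤ 1 / 4 := by
    calc 10 ^ 16 * t ≤ 10 ^ 16 * (1 / 10 ^ 20) := by gcongr
      _ ≤ 1 / 4 := by norm_num
  have ht4 : t ≤ 1 / 4 := ht.trans (by norm_num)
  have injA : Function.Injective RA := by
    rw [injective_iff_map_eq_zero]
    intro a ha
    by_contra ha0
    have hna : ‖a‖ ≠ 0 := norm_ne_zero_iff.mpr ha0
    set a' := ((‖a‖⁻¹ : ℝ) : ℂ) • a with ha'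
    have hn' : ‖a'‖ = 1 := by
      rw [ha', norm_smul]; simp [hna]
    have hR' : RA a' = 0 := by rw [ha', map_smul, ha, smul_zero]
    have h1 := near a' hn'.le
    rw [hR', zero_sub, norm_neg, NonUnitalStarAlgHom.norm_map RB injB] at h1
    obtain ⟨d, hd, hiso⟩ := hφ.isometric
    have h2 := hiso a' hn'.le
    rw [hn'] at h2
    have h3 := (abs_le.mp h2).2
    linarith
  refine ⟨lp H 2, inferInstance, inferInstance, inferInstance, RA, RB, injA, injB, ?_⟩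
  refine max_le ?_ ?_
  · refine Z_oneSided_le _ _ _ ⟨0, map_zero RA⟩ ?_
    rintro _ ⟨a, rfl⟩ ha
    rw [NonUnitalStarAlgHom.norm_map RA injA] at ha
    exact ⟨RB (φ a), ⟨_, rfl⟩, (near a ha).trans (by linarith)⟩
  · refine Z_oneSided_le _ _ _ ⟨0, map_zero RB⟩ ?_
    rintro _ ⟨b, rfl⟩ hb
    rw [NonUnitalStarAlgHom.norm_map RB injB] at hb
    obtain ⟨x, hx1, hx⟩ := hφ.onto b hb
    refine ⟨RA x, ⟨_, rfl⟩, ?_⟩
    have e : RB b - RA x = RB (b - φ x) - (RA x - RB (φ x)) := by rw [map_sub]; abel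
    rw [e]
    calc ‖RB (b - φ x) - (RA x - RB (φ x))‖ ≤ ‖RB (b - φ x)‖ + ‖RA x - RB (φ x)‖ :=
          norm_sub_le _ _
      _ ≤ t ^ 8 + 10 ^ 16 * t := by
        gcongr
        · exact (NonUnitalStarAlgHom.norm_apply_le RB _).trans hx.le
        · exact near x hx1
      _ ≤ 10 ^ 17 * t := by linarith

theorem main :
    ∀ (A B : Type u) [NonUnitalCStarAlgebra A] [NonUnitalCStarAlgebra B] (ε : ℝ),
      0 < ε → (∃ φ : A → B, IsEpsIso ε φ) →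
      ∃ (H : Type u) (_ : NormedAddCommGroup H) (_ : InnerProductSpace ℂ H)
        (_ : CompleteSpace H) (ρA : A →⋆ₙₐ[ℂ] (H →L[ℂ] H)) (ρB : B →⋆ₙₐ[ℂ] (H →L[ℂ] H)),
        Function.Injective ρA ∧ Function.Injective ρB ∧
        dKK (Set.range ρA) (Set.range ρB) ≤ 10 ^ 20 * ε ^ (1 / 8 : ℝ) := by
  intro A B _ _ ε hε hφ
  set t := ε ^ (1 / 8 : ℝ) with ht
  have ht0 : 0 < t := Real.rpow_pos_of_pos hε _
  have ht8 : t ^ 8 = ε := by
    rw [ht, ← Real.rpow_natCast, ← Real.rpow_mul hε.le]; norm_num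
  obtain ⟨φ, hφ⟩ := hφ
  rcases le_total t (1 / 10 ^ 20) with h | h
  · obtain ⟨H, i1, i2, i3, ρA, ρB, h1, h2, h3⟩ := main_small φ t ht0 h (by rwa [ht8])
    exact ⟨H, i1, i2, i3, ρA, ρB, h1, h2, h3.trans (by nlinarith)⟩
  · obtain ⟨H, i1, i2, i3, ρA, ρB, h1, h2, h3⟩ := main_large A B
    refine ⟨H, i1, i2, i3, ρA, ρB, h1, h2, h3.trans ?_⟩
    rw [div_le_iff₀ (by positivity)] at h
    linarith

end Pool.Agent.helper32.CK
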